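import Pool.Agent.L5helper43.Vis.Lower
import Pool.Agent.L5helper43.Vis.Upper

/-!
# The number of visibility graphs of simple polygons is `2 ^ Θ(n log n)`

`N n` is the number of isomorphism classes of visibility graphs of simple polygons with `n` vertices
(`Vis124.N`), `Nstrict n` the number of those which come from a polygon without straight angles.

Lower bound. A polygon with the vertices `w, c_0, t_0, c_1, t_1, ..., c_k, q_0, ..., q_M` (from the
left to the right) and a horizontal base edge: the points `c_i` are on a parabola which bulges into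
the polygon, `t_i` is the tip of a spike between `c_i` and `c_(i+1)`, and the points `q_j` are on a
steep arc. The side of the spike is directed such that `t_i` sees exactly the `q_j` with `j > s i`,
and `s i < M` is arbitrary. The numbers `s i` can be read off from the graph, so that there are at
least `M ^ (k - 1)` isomorphism classes with `n = 2 k + M + 3` vertices.

Upper bound. The labelled visibility graph is determined by the side of the interior and the signs
of `2 n ^ 3` polynomials of degree two in the `2 n` coordinates (orientations and scalar products),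
and there are at most `(16 n ^ 3 + 1) ^ (2 n)` sign vectors.
-/

namespace Pool.Agent.Results.MP_af711c_co.GrowthRate

open Filter Topology Asymptotics Vis124 Pool.Agent.L5helper43.Vis

/-- upper bound -/
theorem log_upper (ε : ℝ) (hε : 0 < ε) : ∀ᶠ n : ℕ in atTop,
    Real.log (N n) ≤ (6 + ε) * (n * Real.log n) := by
  have hlog : Tendsto (fun n : ℕ => Real.log n) atTop atTop :=
    Real.tendsto_log_atTop.comp tendsto_natCast_atTop_atTop
  filter_upwards [eventually_ge_atTop 1,
    hlog.eventually_ge_atTop ((2 * Real.log 17 + Real.log 2) / ε)] with n hn h1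
  have hn1 : (1 : ℝ) ≤ n := by exact_mod_cast hn
  have hlog0 : 0 ≤ Real.log n := Real.log_nonneg hn1
  have h17 : 0 < Real.log 17 := Real.log_pos (by norm_num)
  have h2 : 0 < Real.log 2 := Real.log_pos (by norm_num)
  have hbound : Real.log (N n) ≤ Real.log 2 + 2 * n * (Real.log 17 + 3 * Real.log n) := by
    rcases Nat.eq_zero_or_pos (N n) with h0 | h0
    · rw [h0]
      simp only [Nat.cast_zero, Real.log_zero]
      positivity
    · have h3 : (N n : ℝ) ≤ 2 * (17 * (n : ℝ) ^ 3) ^ (2 * n) := by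
        have h4 : (N n : ℝ) ≤ ((2 * (16 * n ^ 3 + 1) ^ (2 * n) : ℕ) : ℝ) := by
          exact_mod_cast N_le n
        refine h4.trans ?_
        push_cast
        have h5 : (1 : ℝ) ≤ (n : ℝ) ^ 3 := one_le_pow₀ hn1
        have h6 : 16 * (n : ℝ) ^ 3 + 1 ≤ 17 * (n : ℝ) ^ 3 := by linarith
        have h7 : (16 * (n : ℝ) ^ 3 + 1) ^ (2 * n) ≤ (17 * (n : ℝ) ^ 3) ^ (2 * n) :=
          pow_le_pow_left₀ (by positivity) h6 _
        linarith
      have h8 : (0 : ℝ) < N n := by exact_mod_cast h0
      refine (Real.log_le_log h8 h3).trans (le_of_eq ?_)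
      rw [Real.log_mul (by norm_num) (by positivity), Real.log_pow,
        Real.log_mul (by norm_num) (by positivity), Real.log_pow]
      push_cast
      ring
  refine hbound.trans ?_
  have h9 : 2 * Real.log 17 + Real.log 2 ≤ Real.log n * ε := by
    rwa [div_le_iff₀ hε] at h1
  have h10 := mul_le_mul_of_nonneg_left h9 (by linarith : (0 : ℝ) ≤ n)
  nlinarith

/-- lower bound -/
theorem log_lower (ε : ℝ) (hε : 0 < ε) (hε2 : ε < 1 / 2) : ∀ᶠ n : ℕ in atTop,
    (1 / 2 - ε) * (n * Real.log n) ≤ Real.log (Nstrict n) := by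
  have hlog : Tendsto (fun n : ℕ => Real.log n) atTop atTop :=
    Real.tendsto_log_atTop.comp tendsto_natCast_atTop_atTop
  have hnat : Tendsto (fun n : ℕ => (n : ℝ)) atTop atTop := tendsto_natCast_atTop_atTop
  have ht1 : Tendsto (fun n : ℕ => ((1 - ε) / 2 - 3 / (n : ℝ)) *
      (1 - Real.log (2 / ε) / Real.log n)) atTop (𝓝 (((1 - ε) / 2 - 0) * (1 - 0))) :=
    (tendsto_const_nhds.sub (hnat.const_div_atTop 3)).mul
      (tendsto_const_nhds.sub (hlog.const_div_atTop _))
  have hev := ht1.eventually (lt_mem_nhds (a := 1 / 2 - ε) (by linarith))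
  filter_upwards [hev, eventually_ge_atTop 100, hnat.eventually_ge_atTop (2 / ε),
    hnat.eventually_ge_atTop (22 / (1 - ε))] with n h1 hn h2 h2'
  have hn1 : (100 : ℝ) ≤ n := by exact_mod_cast hn
  have hlogn : 0 < Real.log n := Real.log_pos (by linarith)
  obtain ⟨M0, hM0⟩ : ∃ M0, M0 = ⌊ε * n⌋₊ := ⟨_, rfl⟩
  have hεn : 2 ≤ ε * n := by
    rw [div_le_iff₀ hε] at h2
    linarith
  have h22 : 22 ≤ (1 - ε) * n := by
    rw [div_le_iff₀ (by linarith)] at h2'
    linarith
  have hM1 : (M0 : ℝ) ≤ ε * n := by rw [hM0]; exact Nat.floor_le (by linarith)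
  have hM2 : ε * n < M0 + 1 := by rw [hM0]; exact Nat.lt_floor_add_one _
  have hM3 : ε * n / 2 ≤ M0 := by linarith
  have hM4 : 1 ≤ M0 := by
    have : (1 : ℝ) ≤ M0 := by linarith
    exact_mod_cast this
  have hM0n : (M0 : ℝ) + 22 ≤ n := by linarith
  have hM0n' : M0 + 22 ≤ n := by exact_mod_cast hM0n
  obtain ⟨k, hk⟩ : ∃ k, k = (n - 3 - M0) / 2 := ⟨_, rfl⟩
  obtain ⟨M, hM⟩ : ∃ M, M = n - 3 - 2 * k := ⟨_, rfl⟩
  have hk4 : 4 ≤ k := by omega
  have hMM : M0 ≤ M := by omega
  have hnk : 2 * k + 2 + M + 1 = n := by omega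
  have hlow := lower (k := k) (M := M) hk4 (by omega)
  rw [hnk] at hlow
  have hlow' : (M : ℝ) ^ (k - 1) ≤ Nstrict n := by exact_mod_cast hlow
  have hMpos : (0 : ℝ) < M := by exact_mod_cast (by omega : 0 < M)
  have hM0pos : (0 : ℝ) < M0 := by exact_mod_cast (by omega : 0 < M0)
  have h3 : ((k - 1 : ℕ) : ℝ) * Real.log M ≤ Real.log (Nstrict n) := by
    rw [← Real.log_pow]
    exact Real.log_le_log (by positivity) hlow'
  have hk5 : (n : ℝ) * ((1 - ε) / 2 - 3 / (n : ℝ)) ≤ ((k - 1 : ℕ) : ℝ) := by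
    have e1 : (n : ℝ) * ((1 - ε) / 2 - 3 / (n : ℝ)) = (n * (1 - ε)) / 2 - 3 := by
      field_simp
    have e2 : n ≤ 2 * (k - 1) + 6 + M0 := by omega
    have e3 : (n : ℝ) ≤ 2 * ((k - 1 : ℕ) : ℝ) + 6 + M0 := by exact_mod_cast e2
    rw [e1]
    nlinarith
  have hlogM : Real.log n * (1 - Real.log (2 / ε) / Real.log n) ≤ Real.log M := by
    have e1 : Real.log n * (1 - Real.log (2 / ε) / Real.log n) =
        Real.log n - Real.log (2 / ε) := by
      field_simp
    rw [e1, ← Real.log_div (by positivity) (by positivity)]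
    apply Real.log_le_log (by positivity)
    have e2 : (n : ℝ) / (2 / ε) = ε * n / 2 := by field_simp
    rw [e2]
    have e3 : (M0 : ℝ) ≤ M := by exact_mod_cast hMM
    linarith
  have hMlog : 0 ≤ Real.log M := Real.log_nonneg (by exact_mod_cast (by omega : 1 ≤ M))
  have hk6 : (0 : ℝ) ≤ ((k - 1 : ℕ) : ℝ) := Nat.cast_nonneg _
  have h4 : (1 / 2 - ε) * (n * Real.log n) ≤
      ((n : ℝ) * ((1 - ε) / 2 - 3 / (n : ℝ))) *
        (Real.log n * (1 - Real.log (2 / ε) / Real.log n)) := by
    have e1 : ((n : ℝ) * ((1 - ε) / 2 - 3 / (n : ℝ))) *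
        (Real.log n * (1 - Real.log (2 / ε) / Real.log n)) =
        (((1 - ε) / 2 - 3 / (n : ℝ)) * (1 - Real.log (2 / ε) / Real.log n)) *
          (n * Real.log n) := by ring
    rw [e1]
    exact mul_le_mul_of_nonneg_right h1.le (by positivity)
  have h5 : 0 ≤ (n : ℝ) * ((1 - ε) / 2 - 3 / (n : ℝ)) := by
    have e1 : (n : ℝ) * ((1 - ε) / 2 - 3 / (n : ℝ)) = (n * (1 - ε)) / 2 - 3 := by
      field_simp
    rw [e1]
    linarith
  calc (1 / 2 - ε) * (n * Real.log n) ≤ _ := h4
    _ ≤ ((n : ℝ) * ((1 - ε) / 2 - 3 / (n : ℝ))) * Real.log M :=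
        mul_le_mul_of_nonneg_left hlogM h5
    _ ≤ ((k - 1 : ℕ) : ℝ) * Real.log M := mul_le_mul_of_nonneg_right hk5 hMlog
    _ ≤ _ := h3

theorem logb_lower (ε : ℝ) (hε : 0 < ε) : ∀ᶠ n : ℕ in atTop,
    (1 / 2 - ε) * (n * Real.logb 2 n) ≤ Real.logb 2 (Nstrict n) := by
  have h2 : 0 < Real.log 2 := Real.log_pos (by norm_num)
  rcases lt_or_ge ε (1 / 2) with h | h
  · filter_upwards [log_lower ε hε h] with n hn
    unfold Real.logb
    have : (1 / 2 - ε) * (n * (Real.log n / Real.log 2)) =
        (1 / 2 - ε) * (n * Real.log n) / Real.log 2 := by ring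
    rw [this]
    exact div_le_div_of_nonneg_right hn h2.le
  · filter_upwards [eventually_ge_atTop 1] with n hn
    have hn1 : (1 : ℝ) ≤ n := by exact_mod_cast hn
    have h3 : 0 ≤ Real.logb 2 (n : ℝ) := Real.logb_nonneg (by norm_num) hn1
    have h4 : 0 ≤ Real.logb 2 (Nstrict n : ℝ) := by
      rcases Nat.eq_zero_or_pos (Nstrict n) with h0 | h0
      · rw [h0]; simp
      · exact Real.logb_nonneg (by norm_num) (by exact_mod_cast h0)
    have h5 : 0 ≤ (n : ℝ) * Real.logb 2 n := by positivity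
    nlinarith

theorem logb_upper (ε : ℝ) (hε : 0 < ε) : ∀ᶠ n : ℕ in atTop,
    Real.logb 2 (N n) ≤ (6 + ε) * (n * Real.logb 2 n) := by
  have h2 : 0 < Real.log 2 := Real.log_pos (by norm_num)
  filter_upwards [log_upper ε hε] with n hn
  unfold Real.logb
  have : (6 + ε) * (n * (Real.log n / Real.log 2)) =
      (6 + ε) * (n * Real.log n) / Real.log 2 := by ring
  rw [this]
  exact div_le_div_of_nonneg_right hn h2.le

/-- **The growth rate of the number of visibility graphs of simple polygons.**  `log₂ N(n)` is of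
order `n log n`; more precisely it is between `(1 / 2 - ε) n log₂ n` and `(6 + ε) n log₂ n` for
large `n`, and the lower bound holds already for polygons without straight angles. -/
theorem result :
    ((fun n : ℕ => Real.logb 2 (N n)) =Θ[atTop] fun n : ℕ => (n : ℝ) * Real.logb 2 n) ∧
    (∀ n : ℕ, Nstrict n ≤ N n) ∧
    ∀ ε : ℝ, 0 < ε → ∀ᶠ n : ℕ in atTop,
      (1 / 2 - ε) * (n * Real.logb 2 n) ≤ Real.logb 2 (Nstrict n) ∧
      Real.logb 2 (N n) ≤ (6 + ε) * (n * Real.logb 2 n) := by
  refine ⟨?_, Nstrict_le, fun ε hε => (logb_lower ε hε).and (logb_upper ε hε)⟩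
  constructor
  · apply IsBigO.of_bound (6 + 1)
    filter_upwards [logb_upper 1 one_pos, eventually_ge_atTop 1] with n h1 hn
    have hn1 : (1 : ℝ) ≤ n := by exact_mod_cast hn
    have h3 : 0 ≤ Real.logb 2 (n : ℝ) := Real.logb_nonneg (by norm_num) hn1
    have h4 : 0 ≤ Real.logb 2 (N n : ℝ) := by
      rcases Nat.eq_zero_or_pos (N n) with h0 | h0
      · rw [h0]; simp
      · exact Real.logb_nonneg (by norm_num) (by exact_mod_cast h0)
    rw [Real.norm_of_nonneg h4, Real.norm_of_nonneg (by positivity)]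
    exact h1
  · apply IsBigO.of_bound 4
    filter_upwards [logb_lower (1 / 4) (by norm_num), eventually_ge_atTop 1] with n h1 hn
    have hn1 : (1 : ℝ) ≤ n := by exact_mod_cast hn
    have h3 : 0 ≤ Real.logb 2 (n : ℝ) := Real.logb_nonneg (by norm_num) hn1
    have h5 : Real.logb 2 (Nstrict n : ℝ) ≤ Real.logb 2 (N n : ℝ) := by
      rcases Nat.eq_zero_or_pos (Nstrict n) with h0 | h0
      · rw [h0]
        rcases Nat.eq_zero_or_pos (N n) with h0' | h0'
        · rw [h0']
        · simp only [Nat.cast_zero, Real.logb_zero]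
          exact Real.logb_nonneg (by norm_num) (by exact_mod_cast h0')
      · exact Real.logb_le_logb_of_le (by norm_num) (by exact_mod_cast h0)
          (by exact_mod_cast Nstrict_le n)
    have h6 : 0 ≤ (n : ℝ) * Real.logb 2 n := by positivity
    have h4 : 0 ≤ Real.logb 2 (N n : ℝ) := by nlinarith
    rw [Real.norm_of_nonneg h4, Real.norm_of_nonneg h6]
    nlinarith

end Pool.Agent.Results.MP_af711c_co.GrowthRate
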